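import Pool.Agent.H131KL.Final
import Pool.Agent.KLev.Nice

/-!
# `k`-sets of finite point sets in `ℝ ^ d`
-/

namespace H501.KSet

open Finset Filter Topology KLev

/-- `S` is a `k`-set of `P`: a subset with `k` elements that is the intersection of `P` with an
open half-space `{p | ∑ i, v i * p i < c}`, `v ≠ 0`. -/
def IsKSet {d : ℕ} (P : Finset (Fin d → ℝ)) (k : ℕ) (S : Finset (Fin d → ℝ)) : Prop :=
  S ⊆ P ∧ S.card = k ∧ ∃ (v : Fin d → ℝ) (c : ℝ), v ≠ 0 ∧ ∀ p ∈ P, (p ∈ S ↔ ∑ i, v i * p i < c)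

/-- `a d n k`: the maximum number of `k`-sets of a set of `n` points in `ℝ ^ d`. -/
noncomputable def a (d n k : ℕ) : ℕ :=
  sSup {m : ℕ | ∃ P : Finset (Fin d → ℝ), P.card = n ∧ {S | IsKSet P k S}.ncard = m}

lemma kset_subset {d : ℕ} (P : Finset (Fin d → ℝ)) (k : ℕ) :
    {S | IsKSet P k S} ⊆ (P.powerset : Set (Finset (Fin d → ℝ))) := by
  rintro S ⟨h1, -⟩
  exact Finset.mem_coe.mpr (Finset.mem_powerset.mpr h1)

lemma kset_finite {d : ℕ} (P : Finset (Fin d → ℝ)) (k : ℕ) : {S | IsKSet P k S}.Finite :=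
  (Finset.finite_toSet _).subset (kset_subset P k)

lemma a_bdd (d n k : ℕ) :
    BddAbove {m : ℕ | ∃ P : Finset (Fin d → ℝ), P.card = n ∧ {S | IsKSet P k S}.ncard = m} := by
  refine ⟨2 ^ n, ?_⟩
  rintro m ⟨P, hP, rfl⟩
  refine (Set.ncard_le_ncard (kset_subset P k) (Finset.finite_toSet _)).trans ?_
  rw [Set.ncard_coe_finset, Finset.card_powerset, hP]

lemma le_a {d : ℕ} (P : Finset (Fin d → ℝ)) (k : ℕ) : {S | IsKSet P k S}.ncard ≤ a d P.card k :=
  le_csSup (a_bdd d P.card k) ⟨P, rfl, rfl⟩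

/-! ### Complements -/

lemma IsKSet.compl {d : ℕ} {P : Finset (Fin d → ℝ)} {k : ℕ} {S : Finset (Fin d → ℝ)}
    (h : IsKSet P k S) : IsKSet P (P.card - k) (P \ S) := by
  classical
  obtain ⟨h1, h2, v, c, hv, h3⟩ := h
  refine ⟨Finset.sdiff_subset, by rw [Finset.card_sdiff_of_subset h1, h2], ?_⟩
  obtain ⟨c₁, hc₁, hc₂⟩ : ∃ c₁ < c, ∀ p ∈ S, ∑ i, v i * p i ≤ c₁ := by
    rcases S.eq_empty_or_nonempty with hS | hS
    · exact ⟨c - 1, by linarith, by simp [hS]⟩
    · obtain ⟨p, hp, hmax⟩ := S.exists_max_image (fun p => ∑ i, v i * p i) hS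
      exact ⟨∑ i, v i * p i, (h3 p (h1 hp)).mp hp, hmax⟩
  refine ⟨-v, -c₁, neg_ne_zero.mpr hv, fun p hp => ?_⟩
  have e : ∑ i, (-v) i * p i = -∑ i, v i * p i := by
    rw [← Finset.sum_neg_distrib]
    exact Finset.sum_congr rfl fun i _ => by simp
  rw [e, Finset.mem_sdiff, neg_lt_neg_iff]
  constructor
  · rintro ⟨-, hS⟩
    have := not_lt.mp (fun h => hS ((h3 p hp).mpr h))
    linarith
  · intro h
    exact ⟨hp, fun hS => absurd (hc₂ p hS) (not_le.mpr h)⟩

lemma a_compl_le (d n k : ℕ) : a d n k ≤ a d n (n - k) := by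
  classical
  by_cases hne : {m : ℕ | ∃ P : Finset (Fin d → ℝ), P.card = n ∧
      {S | IsKSet P k S}.ncard = m}.Nonempty
  · refine csSup_le hne ?_
    rintro m ⟨P, hP, rfl⟩
    refine le_trans ?_ (hP ▸ le_a P (n - k))
    apply Set.ncard_le_ncard_of_injOn (fun S => P \ S) _ _ (kset_finite P (n - k))
    · intro S hS
      have := IsKSet.compl hS
      rw [hP] at this
      exact this
    · intro S hS T hT hST
      have hST : P \ S = P \ T := hST
      rw [← Finset.sdiff_sdiff_eq_self hS.1, hST, Finset.sdiff_sdiff_eq_self hT.1]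
  · rw [Set.not_nonempty_iff_eq_empty] at hne
    unfold a
    rw [hne]
    simp

/-! ### Configurations of hyperplanes and points -/

open scoped Classical in
/-- hyperplanes with slopes `s i` and intercepts `t i`, and points `(x r, y r)` with exactly `k`
hyperplanes below and none through them, the sets of hyperplanes below being distinct -/
structure GC (ι R : Type) [Fintype ι] (e k : ℕ) where
  s : ι → Fin (e + 1) → ℝ
  t : ι → ℝ
  x : R → Fin (e + 1) → ℝ
  y : R → ℝ
  H : ι → R → ℝ
  hH : ∀ i r, H i r = ∑ j, s i j * x r j + t i - y r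
  hne : ∀ i r, H i r ≠ 0
  hcard : ∀ r, (Finset.univ.filter (fun i => H i r < 0)).card = k
  hdist : ∀ r r', (∀ i, H i r < 0 ↔ H i r' < 0) → r = r'

variable {ι R : Type} [Fintype ι] {e k : ℕ}

lemma GC.sum (C : GC ι R e k) (r : R) (p : ι → Prop) [DecidablePred p]
    (hp : ∀ i, p i ↔ C.H i r < 0) : ∑ i, (if p i then 1 else 0) = k := by
  rw [← Finset.card_filter, ← C.hcard r]
  congr 1
  ext i
  simp [hp]

theorem ofCert {P : ℕ} (C : Cert ι R k P) : Nonempty (GC ι R 0 k) := by
  classical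
  have hc : ∀ r b, (Finset.univ.filter (fun i => C.s i * C.x r b + C.t i < C.y r b)).card = k := by
    intro r b
    rw [Finset.card_filter]
    refine Eq.trans (Finset.sum_congr rfl fun c _ => by congr) (C.hcard r b)
  have key : ∀ r r', C.x r true < C.x r' false →
      ¬ ∀ i, (C.s i * C.x r true + C.t i < C.y r true ↔
        C.s i * C.x r' true + C.t i < C.y r' true) := by
    intro r r' hlt h
    have hlt2 := C.hlt r'
    set S := Finset.univ.filter (fun i => C.s i * C.x r' true + C.t i < C.y r' true) with hS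
    set S' := Finset.univ.filter (fun i => C.s i * C.x r' false + C.t i < C.y r' false) with hS'
    have hl1 : C.l r' ∉ S := by
      simp only [hS, Finset.mem_filter, Finset.mem_univ, true_and, not_lt]
      exact (C.hl1 r').le
    have hl0 : C.l r' ∈ S' := by
      simp only [hS', Finset.mem_filter, Finset.mem_univ, true_and]
      exact C.hl0 r'
    have hnot : ¬ S ⊆ S' := by
      intro hsub
      have := Finset.eq_of_subset_of_card_le hsub (by rw [hc, hc])
      exact hl1 (this ▸ hl0)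
    obtain ⟨i, hi, hi'⟩ := Finset.not_subset.mp hnot
    simp only [hS, hS', Finset.mem_filter, Finset.mem_univ, true_and, not_lt] at hi hi' hl1
    have h0 := C.hl0 r'
    have a1 := (h i).mpr hi
    have a2 : C.y r true ≤ C.s (C.l r') * C.x r true + C.t (C.l r') := by
      by_contra h3
      push Not at h3
      exact absurd ((h _).mp h3) (not_lt.mpr hl1)
    -- the difference of the two heights is affine, negative at both ends, positive in between
    set D := C.s i - C.s (C.l r') with hD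
    set T := C.t i - C.t (C.l r') with hT
    have b1 : D * C.x r true + T < 0 := by rw [hD, hT]; linarith
    have b2 : D * C.x r' true + T < 0 := by rw [hD, hT]; linarith
    have b3 : 0 < D * C.x r' false + T := by rw [hD, hT]; linarith
    have c1 : 0 < D * (C.x r' false - C.x r true) := by linarith
    have c2 : D * (C.x r' true - C.x r' false) < 0 := by linarith
    have d1 : 0 < D := by
      by_contra h4
      push Not at h4
      nlinarith
    nlinarith
  refine ⟨{
    s := fun i _ => C.s i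
    t := C.t
    x := fun r _ => C.x r true
    y := fun r => C.y r true
    H := fun i r => C.s i * C.x r true + C.t i - C.y r true
    hH := fun i r => by simp
    hne := fun i r => sub_ne_zero.mpr (C.hne r true i)
    hcard := fun r => by
      refine Eq.trans (congrArg Finset.card ?_) (hc r true)
      ext i
      simp only [Finset.mem_filter, Finset.mem_univ, true_and, sub_neg]
    hdist := ?_ }⟩
  intro r r' h
  simp only [sub_neg] at h
  by_contra hrr
  rcases C.hdisj r r' hrr with h1 | h1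
  · exact key r r' h1 h
  · exact key r' r h1 (fun i => (h i).symm)

theorem GC.pad (C : GC ι R e k) [Fintype R] (p q : ℕ) :
    Nonempty (GC (ι ⊕ (Fin p ⊕ Fin q)) R e (k + q)) := by
  classical
  obtain ⟨T, hT⟩ : ∃ T : ℝ, ∀ r, |C.y r| < T := by
    refine ⟨∑ r, |C.y r| + 1, fun r => ?_⟩
    have h1 : |C.y r| ≤ ∑ r, |C.y r| :=
      Finset.single_le_sum (f := fun r => |C.y r|) (fun _ _ => abs_nonneg _) (Finset.mem_univ r)
    linarith
  refine ⟨{
    s := Sum.elim C.s (fun _ _ => 0)
    t := Sum.elim C.t (Sum.elim (fun _ => T) (fun _ => -T))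
    x := C.x
    y := C.y
    H := fun i r => Sum.elim (fun i => C.H i r)
      (Sum.elim (fun _ => T - C.y r) (fun _ => -T - C.y r)) i
    hH := ?_
    hne := ?_
    hcard := ?_
    hdist := fun r r' h => C.hdist r r' fun i => by simpa using h (Sum.inl i) }⟩
  · rintro (i | i | i) r
    · simpa using C.hH i r
    · simp
    · simp
  · rintro (i | i | i) r
    · simpa using C.hne i r
    · have := abs_lt.mp (hT r)
      simp only [Sum.elim_inr, Sum.elim_inl]
      intro h; linarith [this.2]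
    · have := abs_lt.mp (hT r)
      simp only [Sum.elim_inr]
      intro h; linarith [this.1]
  · intro r
    have h := abs_lt.mp (hT r)
    have e1 : ¬ (T - C.y r < 0) := by linarith [h.2]
    have e2 : -T - C.y r < 0 := by linarith [h.1]
    rw [Finset.card_filter, Fintype.sum_sum_type, Fintype.sum_sum_type]
    refine Eq.trans (congrArg₂ (· + ·) (C.sum r _ fun i => Iff.rfl)
      (congrArg₂ (· + ·) (Finset.sum_congr rfl fun i _ => if_neg e1)
        (Finset.sum_congr rfl fun i _ => if_pos e2))) ?_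
    simp

theorem GC.pencil (C : GC ι R e k) [Fintype R] (m : ℕ) :
    Nonempty (GC (ι ⊕ (Fin m × Bool)) (R × Fin m) (e + 1) (k + m)) := by
  classical
  obtain ⟨L, hL⟩ : ∃ L : ℝ, ∀ r, |C.y r| < L / 2 := by
    refine ⟨2 * (∑ r, |C.y r| + 1), fun r => ?_⟩
    have h1 : |C.y r| ≤ ∑ r, |C.y r| :=
      Finset.single_le_sum (f := fun r => |C.y r|) (fun _ _ => abs_nonneg _) (Finset.mem_univ r)
    linarith
  -- signs of the new heights
  have hT : ∀ (r : R) (j i : Fin m), (-(L * (((j : ℕ) : ℝ) + 1 / 2)) + L * (i : ℕ) - C.y r ≠ 0) ∧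
      (-(L * (((j : ℕ) : ℝ) + 1 / 2)) + L * (i : ℕ) - C.y r < 0 ↔ (i : ℕ) ≤ j) := by
    intro r j i
    have h := abs_lt.mp (hL r)
    have hL0 : 0 < L := by linarith [abs_nonneg (C.y r), hL r]
    rcases le_or_gt (i : ℕ) (j : ℕ) with h1 | h1
    · have h2 : ((i : ℕ) : ℝ) ≤ ((j : ℕ) : ℝ) := by exact_mod_cast h1
      have h3 : L * (i : ℕ) ≤ L * (j : ℕ) := mul_le_mul_of_nonneg_left h2 hL0.le
      have h4 : -(L * (((j : ℕ) : ℝ) + 1 / 2)) + L * (i : ℕ) - C.y r < 0 := by linarith [h.1]
      exact ⟨h4.ne, fun _ => h1, fun _ => h4⟩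
    · have h2 : ((j : ℕ) : ℝ) + 1 ≤ ((i : ℕ) : ℝ) := by exact_mod_cast h1
      have h3 : L * ((j : ℕ) + 1) ≤ L * (i : ℕ) := mul_le_mul_of_nonneg_left h2 hL0.le
      have h4 : 0 < -(L * (((j : ℕ) : ℝ) + 1 / 2)) + L * (i : ℕ) - C.y r := by linarith [h.2]
      exact ⟨h4.ne', fun h5 => absurd h5 (not_lt.mpr h4.le), fun h5 => absurd h5 (not_le.mpr h1)⟩
  have hF : ∀ (r : R) (j i : Fin m), (L * (((j : ℕ) : ℝ) + 1 / 2) - L * (i : ℕ) - C.y r ≠ 0) ∧
      (L * (((j : ℕ) : ℝ) + 1 / 2) - L * (i : ℕ) - C.y r < 0 ↔ ¬ (i : ℕ) ≤ j) := by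
    intro r j i
    have h := abs_lt.mp (hL r)
    have hL0 : 0 < L := by linarith [abs_nonneg (C.y r), hL r]
    rcases le_or_gt (i : ℕ) (j : ℕ) with h1 | h1
    · have h2 : ((i : ℕ) : ℝ) ≤ ((j : ℕ) : ℝ) := by exact_mod_cast h1
      have h3 : L * (i : ℕ) ≤ L * (j : ℕ) := mul_le_mul_of_nonneg_left h2 hL0.le
      have h4 : 0 < L * (((j : ℕ) : ℝ) + 1 / 2) - L * (i : ℕ) - C.y r := by linarith [h.2]
      exact ⟨h4.ne', fun h5 => absurd h5 (not_lt.mpr h4.le), fun h5 => absurd h1 h5⟩
    · have h2 : ((j : ℕ) : ℝ) + 1 ≤ ((i : ℕ) : ℝ) := by exact_mod_cast h1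
      have h3 : L * ((j : ℕ) + 1) ≤ L * (i : ℕ) := mul_le_mul_of_nonneg_left h2 hL0.le
      have h4 : L * (((j : ℕ) : ℝ) + 1 / 2) - L * (i : ℕ) - C.y r < 0 := by linarith [h.1]
      exact ⟨h4.ne, fun _ => not_le.mpr h1, fun _ => h4⟩
  refine ⟨{
    s := Sum.elim (fun i => Fin.cons 0 (C.s i))
      (fun z => Fin.cons (if z.2 then -L else L) (fun _ => 0))
    t := Sum.elim C.t (fun z => if z.2 then L * (z.1 : ℕ) else -(L * (z.1 : ℕ)))
    x := fun z => Fin.cons (((z.2 : ℕ) : ℝ) + 1 / 2) (C.x z.1)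
    y := fun z => C.y z.1
    H := fun i z => Sum.elim (fun i => C.H i z.1)
      (fun w => if w.2 then -(L * (((z.2 : ℕ) : ℝ) + 1 / 2)) + L * (w.1 : ℕ) - C.y z.1
        else L * (((z.2 : ℕ) : ℝ) + 1 / 2) - L * (w.1 : ℕ) - C.y z.1) i
    hH := ?_
    hne := ?_
    hcard := ?_
    hdist := ?_ }⟩
  · rintro (i | ⟨i, b⟩) ⟨r, j⟩
    · simp only [Sum.elim_inl, Fin.sum_univ_succ (n := e + 1), Fin.cons_zero, Fin.cons_succ,
        zero_mul, zero_add]
      exact C.hH i r
    · cases b
      · simp only [Sum.elim_inr, Fin.sum_univ_succ (n := e + 1), Fin.cons_zero, Fin.cons_succ,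
          zero_mul, Finset.sum_const_zero, Bool.false_eq_true, if_false]
        ring
      · simp only [Sum.elim_inr, Fin.sum_univ_succ (n := e + 1), Fin.cons_zero, Fin.cons_succ,
          zero_mul, Finset.sum_const_zero, if_true]
        ring
  · rintro (i | ⟨i, b⟩) ⟨r, j⟩
    · exact C.hne i r
    · cases b
      · simpa using (hF r j i).1
      · simpa using (hT r j i).1
  · rintro ⟨r, j⟩
    rw [Finset.card_filter, Fintype.sum_sum_type, Fintype.sum_prod_type]
    refine Eq.trans (congrArg₂ (· + ·) (C.sum r _ fun i => Iff.rfl)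
      (Finset.sum_congr (g := fun _ => 1) rfl fun i _ => ?_)) (by simp)
    rw [Fintype.sum_bool]
    simp only [Sum.elim_inr, if_true, Bool.false_eq_true, if_false, (hT r j i).2, (hF r j i).2]
    by_cases h : (i : ℕ) ≤ j <;> simp [h]
  · rintro ⟨r, j⟩ ⟨r', j'⟩ h
    have h1 : r = r' := C.hdist r r' fun i => by simpa using h (Sum.inl i)
    subst h1
    have h2 : ∀ i : Fin m, (i : ℕ) ≤ j ↔ (i : ℕ) ≤ j' := by
      intro i
      have h3 := h (Sum.inr (i, true))
      simp only [Sum.elim_inr, if_true] at h3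
      rwa [(hT r j i).2, (hT r j' i).2] at h3
    have h3 := (h2 j).mp le_rfl
    have h4 := (h2 j').mpr le_rfl
    have : j = j' := Fin.ext (by omega)
    rw [this]

theorem GC.copies (C : GC ι R e k) [Fintype R] (hk : 1 ≤ k) (τ : ℕ) :
    Nonempty (GC (Fin τ × ι) (Fin τ × R) e k) := by
  classical
  obtain ⟨δ, hδ, hδx⟩ : ∃ δ : ℝ, 0 < δ ∧ ∀ r, δ * |C.x r 0| ≤ 1 / 4 := by
    set X := ∑ r, |C.x r 0| + 1 with hX
    have hX1 : 0 < X := by
      have : 0 ≤ ∑ r, |C.x r 0| := Finset.sum_nonneg fun _ _ => abs_nonneg _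
      linarith
    refine ⟨1 / (4 * X), by positivity, fun r => ?_⟩
    have h1 : |C.x r 0| ≤ X := by
      have := Finset.single_le_sum (f := fun r => |C.x r 0|) (fun _ _ => abs_nonneg _)
        (Finset.mem_univ r)
      linarith
    rw [div_mul_eq_mul_div, one_mul, div_le_div_iff₀ (by positivity) (by norm_num)]
    linarith
  obtain ⟨ε, hε, hεx⟩ : ∃ ε : ℝ, 0 < ε ∧ ∀ i r, ε * (|C.H i r| + |C.s i 0| / δ) ≤ 1 / 4 := by
    set X := ∑ i, ∑ r, (|C.H i r| + |C.s i 0| / δ) + 1 with hX
    have hnn : ∀ i r, 0 ≤ |C.H i r| + |C.s i 0| / δ := fun i r => by positivity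
    have hX1 : 0 < X := by
      have : 0 ≤ ∑ i, ∑ r, (|C.H i r| + |C.s i 0| / δ) :=
        Finset.sum_nonneg fun i _ => Finset.sum_nonneg fun r _ => hnn i r
      linarith
    refine ⟨1 / (4 * X), by positivity, fun i r => ?_⟩
    have h1 : |C.H i r| + |C.s i 0| / δ ≤ X := by
      have h2 := Finset.single_le_sum (f := fun r => |C.H i r| + |C.s i 0| / δ)
        (fun r _ => hnn i r) (Finset.mem_univ r)
      have h3 := Finset.single_le_sum (f := fun i => ∑ r, (|C.H i r| + |C.s i 0| / δ))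
        (fun i _ => Finset.sum_nonneg fun r _ => hnn i r) (Finset.mem_univ i)
      linarith
    rw [div_mul_eq_mul_div, one_mul, div_le_div_iff₀ (by positivity) (by norm_num)]
    linarith
  -- the new heights
  set K : Fin τ × ι → Fin τ × R → ℝ := fun z w =>
    (((w.1 : ℕ) : ℝ) - (z.1 : ℕ)) ^ 2 + 2 * δ * C.x w.2 0 * (((w.1 : ℕ) : ℝ) - (z.1 : ℕ)) +
      ε * C.H z.2 w.2 + ε / δ * C.s z.2 0 * (((w.1 : ℕ) : ℝ) - (z.1 : ℕ)) with hK
  have hself : ∀ (a : Fin τ) i r, K (a, i) (a, r) = ε * C.H i r := by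
    intro a i r
    simp only [hK, sub_self]
    ring
  have hother : ∀ (a b : Fin τ) i r, a ≠ b → 0 < K (b, i) (a, r) := by
    intro a b i r hab
    simp only [hK]
    obtain ⟨D, hD⟩ : ∃ D : ℝ, D = ((a : ℕ) : ℝ) - (b : ℕ) := ⟨_, rfl⟩
    have hD1 : 1 ≤ |D| := by
      have h1 : ((a : ℕ) : ℤ) - (b : ℕ) ≠ 0 := by
        intro h
        apply hab
        apply Fin.ext
        omega
      have h2 : (1 : ℤ) ≤ |((a : ℕ) : ℤ) - (b : ℕ)| := Int.one_le_abs h1
      have h3 : (1 : ℝ) ≤ |(((a : ℕ) : ℝ) - (b : ℕ))| := by exact_mod_cast h2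
      rwa [hD]
    rw [← hD]
    have h1 : -(|D| / 2) ≤ 2 * δ * C.x r 0 * D := by
      have h2 : |2 * δ * C.x r 0 * D| ≤ |D| / 2 := by
        rw [abs_mul, abs_mul, abs_mul, abs_two, abs_of_pos hδ]
        have := mul_le_mul_of_nonneg_right (hδx r) (abs_nonneg D)
        linarith
      have := (abs_le.mp h2).1
      linarith
    have h3 : -(|D| / 4) ≤ ε * C.H i r + ε / δ * C.s i 0 * D := by
      have h4 : |ε * C.H i r + ε / δ * C.s i 0 * D| ≤ |D| / 4 := by
        calc |ε * C.H i r + ε / δ * C.s i 0 * D|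
            ≤ |ε * C.H i r| + |ε / δ * C.s i 0 * D| := abs_add_le _ _
          _ = ε * |C.H i r| * 1 + ε * (|C.s i 0| / δ) * |D| := by
              rw [abs_mul, abs_mul, abs_mul, abs_div, abs_of_pos hε, abs_of_pos hδ]; ring
          _ ≤ ε * |C.H i r| * |D| + ε * (|C.s i 0| / δ) * |D| := by
              have : 0 ≤ ε * |C.H i r| := by positivity
              have := mul_le_mul_of_nonneg_left hD1 this
              linarith
          _ = ε * (|C.H i r| + |C.s i 0| / δ) * |D| := by ring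
          _ ≤ 1 / 4 * |D| := mul_le_mul_of_nonneg_right (hεx i r) (abs_nonneg D)
          _ = |D| / 4 := by ring
      have := (abs_le.mp h4).1
      linarith
    have h5 : |D| ≤ D ^ 2 := by
      rw [← sq_abs]
      nlinarith
    linarith
  have hneg : ∀ (a b : Fin τ) i r, (K (b, i) (a, r) < 0 ↔ b = a ∧ C.H i r < 0) := by
    intro a b i r
    by_cases hab : a = b
    · subst hab
      rw [hself]
      constructor
      · intro h
        refine ⟨rfl, ?_⟩
        by_contra h1
        push Not at h1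
        have := mul_nonneg hε.le h1
        linarith
      · rintro ⟨-, h⟩
        exact mul_neg_of_pos_of_neg hε h
    · constructor
      · intro h; exact absurd h (not_lt.mpr (hother a b i r hab).le)
      · rintro ⟨h, -⟩; exact absurd h.symm hab
  refine ⟨{
    s := fun z j => (if j = 0 then -2 * ((z.1 : ℕ) : ℝ) else 0) + ε / δ * C.s z.2 j
    t := fun z => ((z.1 : ℕ) : ℝ) ^ 2 + ε * (C.t z.2 - C.s z.2 0 * (z.1 : ℕ) / δ)
    x := fun w j => (if j = 0 then ((w.1 : ℕ) : ℝ) else 0) + δ * C.x w.2 j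
    y := fun w => -((w.1 : ℕ) : ℝ) ^ 2 - 2 * (w.1 : ℕ) * (δ * C.x w.2 0) + ε * C.y w.2
    H := K
    hH := ?_
    hne := ?_
    hcard := ?_
    hdist := ?_ }⟩
  · rintro ⟨b, i⟩ ⟨a, r⟩
    simp only [hK]
    rw [C.hH i r, Fin.sum_univ_succ, Fin.sum_univ_succ]
    simp only [Fin.succ_ne_zero, if_false, zero_add, if_true]
    have h1 : ∑ j : Fin e, ε / δ * C.s i j.succ * (δ * C.x r j.succ) =
        ε * ∑ j : Fin e, C.s i j.succ * C.x r j.succ := by
      rw [Finset.mul_sum]
      refine Finset.sum_congr rfl fun j _ => ?_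
      field_simp
    rw [h1]
    field_simp
    ring
  · rintro ⟨b, i⟩ ⟨a, r⟩
    by_cases hab : a = b
    · subst hab
      rw [hself]
      exact mul_ne_zero hε.ne' (C.hne i r)
    · exact (hother a b i r hab).ne'
  · rintro ⟨a, r⟩
    rw [Finset.card_filter, Fintype.sum_prod_type]
    simp only [hneg]
    rw [Finset.sum_eq_single a]
    · exact C.sum r _ fun i => by simp
    · intro b _ hb
      simp [hb]
    · intro h; exact absurd (Finset.mem_univ a) h
  · rintro ⟨a, r⟩ ⟨a', r'⟩ h
    have hne : (Finset.univ.filter (fun i => C.H i r < 0)).Nonempty := by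
      rw [← Finset.card_pos, C.hcard r]; omega
    obtain ⟨i, hi⟩ := hne
    simp only [Finset.mem_filter, Finset.mem_univ, true_and] at hi
    have h1 := (h (a, i)).mp ((hneg a a i r).mpr ⟨rfl, hi⟩)
    rw [hneg] at h1
    obtain ⟨rfl, -⟩ := h1
    have h2 : r = r' := by
      apply C.hdist
      intro j
      have h3 := h (a, j)
      rw [hneg, hneg] at h3
      simpa using h3
    rw [h2]

theorem GC.le_a (C : GC ι R e k) [Fintype R] :
    Fintype.card R ≤ a (e + 2) (Fintype.card ι) k := by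
  classical
  set n : ι → ℝ := fun i => ((Fintype.equivFin ι i : ℕ) : ℝ) with hn
  have hninj : Function.Injective n := by
    intro i j h
    exact (Fintype.equivFin ι).injective (Fin.ext (Nat.cast_injective h))
  have h1 : ∀ᶠ z in 𝓝[>] (0:ℝ), ∀ i r, (C.H i r + z * n i ≠ 0 ∧
      (C.H i r + z * n i < 0 ↔ C.H i r < 0)) := by
    rw [eventually_all]; intro i
    rw [eventually_all]; intro r
    exact ev_sign (n i) (C.hne i r)
  have h2 : ∀ᶠ z in 𝓝[>] (0:ℝ), ∀ i j, i ≠ j → C.t i + z * n i ≠ C.t j + z * n j := by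
    rw [eventually_all]; intro i
    rw [eventually_all]; intro j
    by_cases hij : i = j
    · exact Filter.Eventually.of_forall fun z h => absurd hij h
    · have hnij : n i - n j ≠ 0 := sub_ne_zero.mpr fun h => hij (hninj h)
      by_cases ht : C.t i - C.t j = 0
      · filter_upwards [self_mem_nhdsWithin] with z hz _ h3
        have h4 : z * (n i - n j) = 0 := by linarith
        rcases mul_eq_zero.mp h4 with h5 | h5
        · exact absurd h5 (ne_of_gt hz)
        · exact hnij h5
      · filter_upwards [ev_sign (n i - n j) ht] with z hz _ h3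
        apply hz.1
        linarith
  obtain ⟨z, hz1, hz2⟩ := (h1.and h2).exists
  set p : ι → Fin (e + 2) → ℝ := fun i => Fin.cons (C.t i + z * n i) (C.s i) with hp
  have hpinj : Function.Injective p := by
    intro i j h
    by_contra hij
    apply hz2 i j hij
    have := congrFun h 0
    simpa [hp] using this
  set Pt : Finset (Fin (e + 2) → ℝ) := Finset.univ.image p with hPt
  have hPc : Pt.card = Fintype.card ι := by
    rw [hPt, Finset.card_image_of_injective _ hpinj, Finset.card_univ]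
  set F : R → Finset (Fin (e + 2) → ℝ) := fun r =>
    (Finset.univ.filter (fun i => C.H i r < 0)).image p with hF
  have hmem : ∀ i r, p i ∈ F r ↔ C.H i r < 0 := by
    intro i r
    simp only [hF, Finset.mem_image, Finset.mem_filter, Finset.mem_univ, true_and]
    constructor
    · rintro ⟨j, hj, hji⟩
      rw [← hpinj hji]; exact hj
    · intro h; exact ⟨i, h, rfl⟩
  have hFinj : Function.Injective F := by
    intro r r' h
    apply C.hdist
    intro i
    rw [← hmem, ← hmem, h]
  have hk : ∀ r, IsKSet Pt k (F r) := by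
    intro r
    refine ⟨?_, ?_, Fin.cons 1 (C.x r), C.y r, ?_, ?_⟩
    · exact Finset.image_subset_image (Finset.filter_subset _ _)
    · simp only [hF]
      rw [Finset.card_image_of_injective _ hpinj, C.hcard r]
    · intro h
      have := congrFun h 0
      simp at this
    · intro q hq
      simp only [hPt, Finset.mem_image, Finset.mem_univ, true_and] at hq
      obtain ⟨i, rfl⟩ := hq
      rw [hmem, ← (hz1 i r).2, C.hH i r, Fin.sum_univ_succ (n := e + 1)]
      simp only [hp, Fin.cons_zero, Fin.cons_succ, one_mul]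
      have : ∑ j : Fin (e + 1), C.x r j * C.s i j = ∑ j : Fin (e + 1), C.s i j * C.x r j :=
        Finset.sum_congr rfl fun j _ => mul_comm _ _
      rw [this]
      constructor <;> intro h <;> linarith
  calc Fintype.card R = (Set.range F).ncard := by
        rw [← Set.image_univ, Set.ncard_image_of_injective _ hFinj, Set.ncard_univ,
          Nat.card_eq_fintype_card]
    _ ≤ {S | IsKSet Pt k S}.ncard := by
        apply Set.ncard_le_ncard _ (kset_finite Pt k)
        rintro _ ⟨r, rfl⟩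
        exact hk r
    _ ≤ a (e + 2) Pt.card k := H501.KSet.le_a Pt k
    _ = _ := by rw [hPc]

end H501.KSet
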