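import Pool.Agent.H501R3.KSet

/-!
# `k`-sets: the lower bound
-/

namespace H501.KSet

open Finset Filter Topology KLev

theorem pencils {ι R : Type} [Fintype ι] [Fintype R] {κ : ℕ} (C : GC ι R 0 κ) (m : ℕ) :
    ∀ e : ℕ, ∃ (ι' R' : Type) (_ : Fintype ι') (_ : Fintype R'),
      Fintype.card ι' = Fintype.card ι + 2 * m * e ∧ Fintype.card R' = Fintype.card R * m ^ e ∧
        Nonempty (GC ι' R' e (κ + m * e)) := by
  intro e
  induction e with
  | zero => exact ⟨ι, R, inferInstance, inferInstance, by simp, by simp, ⟨by simpa using C⟩⟩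
  | succ e ih =>
    obtain ⟨ι', R', _, _, h1, h2, ⟨C'⟩⟩ := ih
    obtain ⟨C''⟩ := C'.pencil m
    refine ⟨ι' ⊕ (Fin m × Bool), R' × Fin m, inferInstance, inferInstance, ?_, ?_, ⟨?_⟩⟩
    · simp only [Fintype.card_sum, Fintype.card_prod, Fintype.card_fin, Fintype.card_bool, h1]
      ring
    · simp only [Fintype.card_prod, Fintype.card_fin, h2]
      ring
    · have e1 : κ + m * (e + 1) = κ + m * e + m := by ring
      rw [e1]
      exact C''

theorem le_a_of_has {N E P : ℕ} (h : Has N E P) (e m k n t : ℕ) (h1 : N + m * e ≤ k)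
    (h2 : t * (2 * k) ≤ n) : t * (E * m ^ e) ≤ a (e + 2) n k := by
  obtain ⟨ι, R, _, _, κ, C, -, h3, h4, h5, h6⟩ := h
  obtain ⟨C₀⟩ := ofCert C
  obtain ⟨ι₁, R₁, _, _, h7, h8, ⟨C₁⟩⟩ := pencils C₀ m e
  obtain ⟨C₂⟩ := C₁.pad 0 (k - (κ + m * e))
  have e1 : κ + m * e + (k - (κ + m * e)) = k := by omega
  rw [e1] at C₂
  obtain ⟨C₃⟩ := C₂.copies (by omega) t
  set B := Fintype.card (ι₁ ⊕ (Fin 0 ⊕ Fin (k - (κ + m * e)))) with hB
  have hB1 : B = N + 2 * m * e + (k - (κ + m * e)) := by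
    rw [hB]
    simp only [Fintype.card_sum, Fintype.card_fin, h7, h3]
    omega
  have hB2 : B ≤ 2 * k := by
    have : 2 * m * e = m * e + m * e := by ring
    omega
  have hB3 : t * B ≤ n := (Nat.mul_le_mul_left t hB2).trans h2
  obtain ⟨C₄⟩ := C₃.pad (n - t * B) 0
  have h9 := C₄.le_a
  have e2 : Fintype.card ((Fin t × (ι₁ ⊕ (Fin 0 ⊕ Fin (k - (κ + m * e))))) ⊕
      (Fin (n - t * B) ⊕ Fin 0)) = n := by
    rw [Fintype.card_sum, Fintype.card_prod, ← hB, Fintype.card_sum, Fintype.card_fin,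
      Fintype.card_fin, Fintype.card_fin]
    omega
  rw [e2, add_zero, Fintype.card_prod, Fintype.card_fin, h8, h4] at h9
  exact h9

/-- the main lower bound -/
theorem main (d : ℕ) (hd : 2 ≤ d) (C : ℝ) : ∃ k₀ : ℕ, ∀ k n : ℕ, k₀ ≤ k → 2 * k ≤ n →
    C * n * (k : ℝ) ^ ((d : ℝ) - 2 + Real.exp (-3 * √(Real.log (Real.log k)))) ≤ (a d n k : ℝ) := by
  obtain ⟨e, rfl⟩ : ∃ e, d = e + 2 := ⟨d - 2, by omega⟩
  set C₀ : ℝ := max C 0 with hC₀
  have hC₀0 : 0 ≤ C₀ := le_max_right _ _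
  obtain ⟨k₁, hk₁⟩ :=
    (NearPoly.finalP (C₀ * 4 * (4 * (e + 1)) ^ e)).exists_forall_of_atTop
  refine ⟨2 * k₁ + 2 * (e + 1) + 10, fun k n hk hn => ?_⟩
  obtain ⟨N, E, P, hH, hN, hE⟩ := hk₁ (k / 2) (by omega)
  have hEk := hE k (by
    have : k / 2 ≤ k := Nat.div_le_self k 2
    exact_mod_cast this) (by
    have : k ≤ 8 * (k / 2) := by omega
    exact_mod_cast this)
  set η := Real.exp (-3 * √(Real.log (Real.log k))) with hη
  set m := k / (2 * (e + 1)) with hm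
  set t := n / (2 * k) with ht
  have hme : m * e ≤ k / 2 := by
    rw [Nat.le_div_iff_mul_le (by norm_num)]
    calc m * e * 2 ≤ m * (2 * (e + 1)) := by nlinarith [Nat.zero_le m]
      _ ≤ k := Nat.div_mul_le_self k _
  have h1 := le_a_of_has hH e m k n t (by omega) (Nat.div_mul_le_self n _)
  have h2 : ((t * (E * m ^ e) : ℕ) : ℝ) ≤ a (e + 2) n k := by exact_mod_cast h1
  refine le_trans ?_ h2
  have hk0 : (0 : ℝ) < k := by
    have : 0 < k := by omega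
    exact_mod_cast this
  have hn0 : (0 : ℝ) ≤ n := Nat.cast_nonneg _
  -- the number of copies
  have ht1 : (n : ℝ) ≤ 4 * k * t := by
    have h3 : n < 2 * k * (t + 1) := Nat.lt_mul_div_succ n (by omega)
    have h4 : 1 ≤ t := (Nat.le_div_iff_mul_le (by omega)).mpr (by omega)
    have h5 : n ≤ 4 * k * t := by nlinarith
    exact_mod_cast h5
  have hm1 : (k : ℝ) ≤ 4 * (e + 1) * m := by
    have h3 : k < 2 * (e + 1) * (m + 1) := Nat.lt_mul_div_succ k (by omega)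
    have h4 : 1 ≤ m := (Nat.le_div_iff_mul_le (by omega)).mpr (by omega)
    have h5 : k ≤ 4 * (e + 1) * m := by nlinarith
    exact_mod_cast h5
  have hCC : C ≤ C₀ := le_max_left _ _
  have hp : (0 : ℝ) ≤ (k : ℝ) ^ η := by positivity
  have e1 : (k : ℝ) ^ (((e + 2 : ℕ) : ℝ) - 2 + η) = (k : ℝ) ^ e * (k : ℝ) ^ η := by
    rw [show ((e + 2 : ℕ) : ℝ) - 2 + η = (e : ℝ) + η by push_cast; ring, Real.rpow_add hk0,
      Real.rpow_natCast]
  have e2 : (k : ℝ) ^ (1 + η) = k * (k : ℝ) ^ η := by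
    rw [Real.rpow_add hk0, Real.rpow_one]
  rw [e1]
  rw [e2] at hEk
  push_cast
  have h6 : (k : ℝ) ^ e ≤ (4 * (e + 1)) ^ e * (m : ℝ) ^ e := by
    rw [← mul_pow]
    exact pow_le_pow_left₀ hk0.le hm1 e
  calc C * n * ((k : ℝ) ^ e * (k : ℝ) ^ η)
      ≤ C₀ * n * ((k : ℝ) ^ e * (k : ℝ) ^ η) := by gcongr
    _ ≤ C₀ * (4 * k * t) * (((4 * (e + 1)) ^ e * (m : ℝ) ^ e) * (k : ℝ) ^ η) := by gcongr
    _ = t * ((C₀ * 4 * (4 * (e + 1)) ^ e * (k * (k : ℝ) ^ η)) * (m : ℝ) ^ e) := by ring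
    _ ≤ t * (E * (m : ℝ) ^ e) := by gcongr

end H501.KSet
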